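import Pool.Agent.Q187.SA.Step
import Pool.Agent.Results.MP_c9a594_an.SmoothLiouville

/-!
# Short pieces of orbits of fractions with smooth denominators
-/

set_option autoImplicit false

namespace Pool.Agent.Q187.SA

open Finset Pool.Agent.Results.MP_c9a594_an.SmoothLiouville

/-- all primes of `q` divide `s` -/
def Smo (s q : ℕ) : Prop := ∀ p : ℕ, p.Prime → p ∣ q → p ∣ s

lemma mult_eq {s : ℕ} {B : ℤ} (hB : 2 ≤ B) (hs : ∀ p : ℕ, p.Prime → p ∣ s → (p : ℤ) ∣ B - 1)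
    (h4 : 2 ∣ s → (4 : ℤ) ∣ B - 1) {p : ℕ} (hp : p.Prime) (hps : p ∣ s) (D : ℕ) :
    emultiplicity (p : ℤ) (B ^ D - 1) = emultiplicity (p : ℤ) ((B - 1) * D) := by
  have hpB := hs p hp hps
  have hpint : Prime (p : ℤ) := Nat.prime_iff_prime_int.1 hp
  have hnB : ¬ (p : ℤ) ∣ B := by
    intro h1
    have h2 : (p : ℤ) ∣ 1 := by
      have := dvd_sub h1 hpB
      simpa using this
    exact hpint.not_isUnit (isUnit_of_dvd_one h2)
  rw [emultiplicity_mul hpint]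
  have hmul : emultiplicity (p : ℤ) (B ^ D - 1 ^ D) = emultiplicity (p : ℤ) (B - 1) +
      emultiplicity (p : ℤ) (D : ℤ) := by
    rcases hp.eq_two_or_odd' with rfl | hodd
    · have := Int.two_pow_sub_pow' D (x := B) (y := 1) (h4 hps) (by exact_mod_cast hnB)
      exact_mod_cast this
    · have := Int.emultiplicity_pow_sub_pow hp hodd (x := B) (y := 1) hpB hnB D
      rw [this]
      congr 1
      exact (Int.natCast_emultiplicity p D).symm
  rwa [one_pow] at hmul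

/-- `D` divides `B ^ D - 1` for smooth `D` -/
lemma dvd_pow_sub {s : ℕ} {B : ℤ} (hB : 2 ≤ B)
    (hs : ∀ p : ℕ, p.Prime → p ∣ s → (p : ℤ) ∣ B - 1) (h4 : 2 ∣ s → (4 : ℤ) ∣ B - 1)
    {D : ℕ} (hD : Smo s D) : (D : ℤ) ∣ B ^ D - 1 := by
  rw [Int.natCast_dvd, Nat.dvd_iff_prime_pow_dvd_dvd]
  intro p e hp he
  rcases Nat.eq_zero_or_pos e with rfl | he0
  · simp
  have hps := hD p hp ((dvd_pow_self p he0.ne').trans he)
  have h1 := mult_eq hB hs h4 hp hps D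
  have h2 : (e : ℕ∞) ≤ emultiplicity (p : ℤ) ((B - 1) * D) := by
    apply le_emultiplicity_of_pow_dvd
    have : ((p : ℤ) ^ e) ∣ (D : ℤ) := by exact_mod_cast he
    exact this.mul_left _
  rw [← h1] at h2
  have h3 : (p : ℤ) ^ e ∣ B ^ D - 1 := pow_dvd_of_le_emultiplicity h2
  have h4' : ((p ^ e : ℕ) : ℤ) ∣ B ^ D - 1 := by exact_mod_cast h3
  exact Int.natCast_dvd.1 h4'

/-- smooth divisors of `(B ^ D - 1) ^ e` divide `((B - 1) D) ^ e` -/
lemma dvd_of_dvd {s : ℕ} {B : ℤ} (hB : 2 ≤ B)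
    (hs : ∀ p : ℕ, p.Prime → p ∣ s → (p : ℤ) ∣ B - 1) (h4 : 2 ∣ s → (4 : ℤ) ∣ B - 1)
    (D e : ℕ) {g : ℕ} (hg : Smo s g) (h : (g : ℤ) ∣ (B ^ D - 1) ^ e) :
    (g : ℤ) ∣ ((B - 1) * D) ^ e := by
  rw [Int.natCast_dvd, Nat.dvd_iff_prime_pow_dvd_dvd]
  intro p n hp hn
  rcases Nat.eq_zero_or_pos n with rfl | hn0
  · simp
  have hps := hg p hp ((dvd_pow_self p hn0.ne').trans hn)
  have hpint : Prime (p : ℤ) := Nat.prime_iff_prime_int.1 hp
  have h1 := mult_eq hB hs h4 hp hps D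
  have h2 : (n : ℕ∞) ≤ emultiplicity (p : ℤ) ((B ^ D - 1) ^ e) := by
    apply le_emultiplicity_of_pow_dvd
    have h3 : ((p : ℤ) ^ n) ∣ (g : ℤ) := by exact_mod_cast hn
    exact h3.trans h
  rw [emultiplicity_pow hpint, h1, ← emultiplicity_pow hpint] at h2
  have h3 : (p : ℤ) ^ n ∣ ((B - 1) * D) ^ e := pow_dvd_of_le_emultiplicity h2
  have h4' : ((p ^ n : ℕ) : ℤ) ∣ ((B - 1) * D) ^ e := by exact_mod_cast h3
  exact Int.natCast_dvd.1 h4'

/-- admissible data -/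
structure Valid (s r q D : ℕ) (c : ℤ) : Prop where
  q1 : 1 ≤ q
  D1 : 1 ≤ D
  qs : Smo s q
  Ds : Smo s D
  dvd : q ∣ D ^ r
  le : D ^ r ≤ q * s ^ (r - 1)
  co : IsCoprime c q

/-- the iterated differences with lag `t D` of the orbit of `c / q` -/
noncomputable def A (b t D q : ℕ) (c : ℤ) (i k : ℕ) : ℝ :=
  (b : ℝ) ^ k * ((b : ℝ) ^ (t * D) - 1) ^ i * c / q

lemma A_step (b t D q : ℕ) (c : ℤ) (i k : ℕ) :
    A b t D q c i (k + t * D) = A b t D q c i k + A b t D q c (i + 1) k := by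
  unfold A
  rw [pow_add]
  ring

/-- the period: `b ^ t = 1` modulo `s ^ 2` -/
lemma period {s b : ℕ} (hb : 2 ≤ b) (hs1 : 1 ≤ s) (hsb : Nat.Coprime b s) :
    ∃ t : ℕ, 0 < t ∧ (2 : ℤ) ≤ (b : ℤ) ^ t ∧
      (∀ p : ℕ, p.Prime → p ∣ s → (p : ℤ) ∣ (b : ℤ) ^ t - 1) ∧
      (2 ∣ s → (4 : ℤ) ∣ (b : ℤ) ^ t - 1) := by
  set t := Nat.totient (s ^ 2) with ht
  have ht0 : 0 < t := Nat.totient_pos.2 (by positivity)
  have hB2 : 2 ≤ b ^ t := hb.trans (Nat.le_self_pow ht0.ne' b)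
  have hdvd : s ^ 2 ∣ b ^ t - 1 := by
    have h1 : b ^ t ≡ 1 [MOD s ^ 2] := Nat.ModEq.pow_totient (hsb.pow_right 2)
    exact (Nat.modEq_iff_dvd' (by omega)).1 h1.symm
  have hcast : ((b ^ t - 1 : ℕ) : ℤ) = ((b : ℤ) ^ t) - 1 := by
    rw [Nat.cast_sub (by omega)]; push_cast; ring
  refine ⟨t, ht0, by exact_mod_cast hB2, fun p _ hps => ?_, fun h2 => ?_⟩
  · rw [← hcast]
    exact Int.natCast_dvd_natCast.2 ((hps.trans (dvd_pow_self s two_ne_zero)).trans hdvd)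
  · rw [← hcast]
    have : 4 ∣ s ^ 2 := by
      obtain ⟨u, rfl⟩ := h2
      exact ⟨u ^ 2, by ring⟩
    exact_mod_cast this.trans hdvd

/-- the highest difference -/
lemma base {s b t : ℕ} (hb : 2 ≤ b) (hs1 : 1 ≤ s) (hsb : Nat.Coprime b s)
    (hB : (2 : ℤ) ≤ (b : ℤ) ^ t)
    (hs : ∀ p : ℕ, p.Prime → p ∣ s → (p : ℤ) ∣ (b : ℤ) ^ t - 1)
    (h4 : 2 ∣ s → (4 : ℤ) ∣ (b : ℤ) ^ t - 1) (r : ℕ) {ε : ℝ} (hε : 0 < ε) :
    ∃ Q : ℕ, ∀ (q D : ℕ) (c : ℤ), Q ≤ q → Valid s (r + 1) q D c → ∀ y : ℝ,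
      Hit (A b t D q c) r y ε D := by
  obtain ⟨M, hM1, hM⟩ := cover' hb hs1 hsb
  set Bn : ℕ := b ^ t with hBn
  have hBn2 : 2 ≤ Bn := by exact_mod_cast hB
  set K : ℕ := ((Bn - 1) * s) ^ r with hK
  obtain ⟨X, hX⟩ := exists_nat_gt ((M : ℝ) / ε)
  refine ⟨(K * X) ^ (r + 1) + 1, ?_⟩
  intro q D c hQ hV y
  obtain ⟨q1, D1, qs, Ds, hdvd, hle, hco⟩ := hV
  -- `D` is large
  have hDX : K * X < D := by
    by_contra hcon
    push Not at hcon
    have h1 : q ≤ D ^ (r + 1) := Nat.le_of_dvd (by positivity) hdvd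
    have h2 : D ^ (r + 1) ≤ (K * X) ^ (r + 1) := Nat.pow_le_pow_left hcon _
    omega
  -- the integer `W = b ^ (t D) - 1`
  set W : ℤ := (b : ℤ) ^ (t * D) - 1 with hW
  have hWB : W = ((b : ℤ) ^ t) ^ D - 1 := by rw [hW, pow_mul]
  have hDW : (D : ℤ) ∣ W := by
    rw [hWB]; exact dvd_pow_sub hB hs h4 Ds
  set g : ℕ := Int.gcd (W ^ r) q with hg
  have hg0 : 0 < g := Int.gcd_pos_of_ne_zero_right _ (by exact_mod_cast (by omega : q ≠ 0))
  have hgq : g ∣ q := by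
    have := Int.gcd_dvd_right (W ^ r) (q : ℤ)
    exact_mod_cast this
  have hgW : (g : ℤ) ∣ W ^ r := Int.gcd_dvd_left _ _
  obtain ⟨q', hq'⟩ := hgq
  obtain ⟨N1, hN1⟩ := hgW
  have hq'1 : 1 ≤ q' := by
    rcases Nat.eq_zero_or_pos q' with h0 | h0
    · rw [h0] at hq'; omega
    · exact h0
  have hcoN : IsCoprime N1 (q' : ℤ) := by
    rw [Int.isCoprime_iff_gcd_eq_one]
    have h1 : Int.gcd (W ^ r) q = g * Int.gcd N1 q' := by
      rw [hN1, hq']; push_cast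
      rw [Int.gcd_mul_left]; simp
    have h2 : g * 1 = g * Int.gcd N1 q' := by rw [mul_one, ← h1]
    exact (Nat.eq_of_mul_eq_mul_left hg0 h2).symm
  -- `q' ∣ D`
  have hq'D : q' ∣ D := by
    have h1 : (q : ℤ) ∣ W ^ r * D := by
      have h2 : (q : ℤ) ∣ (D : ℤ) ^ (r + 1) := by exact_mod_cast hdvd
      refine h2.trans ?_
      rw [pow_succ]
      exact mul_dvd_mul_right (pow_dvd_pow_of_dvd hDW r) _
    rw [hN1, hq'] at h1
    have h2 : (g : ℤ) * q' ∣ g * (N1 * D) := by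
      have : (g : ℤ) * N1 * D = g * (N1 * D) := by ring
      rw [← this]
      exact_mod_cast h1
    have h3 : (q' : ℤ) ∣ N1 * D :=
      (mul_dvd_mul_iff_left (by exact_mod_cast hg0.ne')).1 h2
    have h5 : (q' : ℤ) ∣ D := hcoN.symm.dvd_of_dvd_mul_left h3
    exact_mod_cast h5
  have hq'le : q' ≤ D := Nat.le_of_dvd (by omega) hq'D
  -- `q'` is large
  have hgs : Smo s g := fun p hp hpg => qs p hp (by rw [hq']; exact hpg.mul_right _)
  have hgle : g ≤ ((Bn - 1) * D) ^ r := by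
    have h1 : (g : ℤ) ∣ (((b : ℤ) ^ t - 1) * D) ^ r := by
      apply dvd_of_dvd hB hs h4 D r hgs
      rw [← hWB, hN1]
      exact dvd_mul_right _ _
    have h2 : ((((Bn - 1) * D) ^ r : ℕ) : ℤ) = (((b : ℤ) ^ t - 1) * D) ^ r := by
      push_cast
      rw [Nat.cast_sub (by omega), hBn]
      push_cast
      ring
    rw [← h2] at h1
    have h3 : g ∣ ((Bn - 1) * D) ^ r := by exact_mod_cast h1
    refine Nat.le_of_dvd ?_ h3
    have : 0 < (Bn - 1) * D := Nat.mul_pos (by omega) (by omega)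
    positivity
  have hDK : D ≤ K * q' := by
    have h1 : D ^ r * D ≤ D ^ r * (K * q') := by
      calc D ^ r * D = D ^ (r + 1) := (pow_succ _ _).symm
        _ ≤ q * s ^ (r + 1 - 1) := hle
        _ = g * q' * s ^ r := by rw [Nat.add_sub_cancel, hq']
        _ ≤ ((Bn - 1) * D) ^ r * q' * s ^ r := by
            apply Nat.mul_le_mul_right
            exact Nat.mul_le_mul_right _ hgle
        _ = D ^ r * (K * q') := by rw [hK, mul_pow, mul_pow]; ring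
    exact Nat.le_of_mul_le_mul_left h1 (by positivity)
  have hXq : X < q' := by
    by_contra hcon
    push Not at hcon
    have h1 : K * q' ≤ K * X := Nat.mul_le_mul_left _ hcon
    omega
  -- the covering
  have hq's : Smo s q' := fun p hp hpg => qs p hp (by rw [hq']; exact hpg.mul_left _)
  have hcoq' : IsCoprime c (q' : ℤ) := by
    have h1 : IsCoprime c ((g : ℤ) * q') := by
      have : ((q : ℕ) : ℤ) = (g : ℤ) * q' := by rw [hq']; push_cast; ring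
      rwa [this] at hco
    exact h1.of_mul_right_right
  set N : ℤ := N1 * c with hN
  have hcoN' : IsCoprime N (q' : ℤ) := hcoN.mul_left hcoq'
  have hM1' : (1 : ℝ) ≤ M := by exact_mod_cast hM1
  have hM0 : (0 : ℝ) < M := by linarith
  have hq0 : (0 : ℝ) < q' := by exact_mod_cast hq'1
  have hqM : (M : ℝ) / q' < ε := by
    rw [div_lt_iff₀ hε] at hX
    rw [div_lt_iff₀ hq0, mul_comm]
    refine hX.trans ?_
    exact mul_lt_mul_of_pos_right (by exact_mod_cast hXq) hε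
  set z : ℤ := ⌊(y * q' - N) / M⌋ with hz
  have hz1 : (z : ℝ) ≤ (y * q' - N) / M := Int.floor_le _
  have hz2 : (y * q' - N) / M < z + 1 := Int.lt_floor_add_one _
  rw [le_div_iff₀ hM0] at hz1
  rw [div_lt_iff₀ hM0] at hz2
  obtain ⟨u, v, huv⟩ := hcoN'
  obtain ⟨j, hjq, hj⟩ := hM q' hq'1 hq's (u * z)
  have h1 : (q' : ℤ) ∣ (b : ℤ) ^ j * N - (N + M * z) := by
    have h2 : (b : ℤ) ^ j * N - (N + M * z) =
        N * ((b : ℤ) ^ j - (1 + M * (u * z))) - q' * (M * z * v) := by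
        linear_combination ((M : ℤ) * z) * huv
    rw [h2]
    exact dvd_sub (hj.mul_left _) (dvd_mul_right _ _)
  obtain ⟨w, hw⟩ := h1
  have hw' : (b : ℝ) ^ j * N = (N + M * z) + q' * w := by
    have : (b : ℤ) ^ j * N = (N + M * z) + q' * w := by linarith
    exact_mod_cast this
  have hg0' : (g : ℝ) ≠ 0 := by exact_mod_cast hg0.ne'
  have hWr : ((b : ℝ) ^ (t * D) - 1) ^ r = g * N1 := by
    have : (((b : ℤ) ^ (t * D) - 1) ^ r : ℤ) = g * N1 := hN1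
    exact_mod_cast this
  have hq'r : (q : ℝ) = g * q' := by rw [hq']; push_cast; ring
  refine ⟨j, hjq.le.trans hq'le, ⟨w, ?_⟩, ?_⟩
  · have h2 : A b t D q c r j = (b : ℝ) ^ j * N / q' := by
      unfold A
      rw [hWr, hq'r, hN]
      push_cast
      field_simp
    rw [h2, hw']
    have h3 : ((N : ℝ) + M * z + q' * w) / q' - y - w = -((y * q' - N) - M * z) / q' := by
      field_simp
      ring
    rw [h3, neg_div, abs_neg, abs_div, abs_of_pos hq0]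
    refine lt_of_le_of_lt ?_ hqM
    apply div_le_div_of_nonneg_right _ hq0.le
    rw [abs_le]
    constructor
    · nlinarith
    · nlinarith
  · intro i hi
    obtain ⟨i', rfl⟩ : ∃ i', i = r + 1 + i' := ⟨i - (r + 1), by omega⟩
    -- an integer
    have h2 : (q : ℤ) ∣ W ^ (r + 1 + i') := by
      have h3 : (q : ℤ) ∣ (D : ℤ) ^ (r + 1) := by exact_mod_cast hdvd
      have h5 : (D : ℤ) ^ (r + 1) ∣ W ^ (r + 1) := pow_dvd_pow_of_dvd hDW _
      exact (h3.trans h5).trans (pow_dvd_pow _ (by omega))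
    obtain ⟨v', hv'⟩ := h2
    have h3 : ((b : ℝ) ^ (t * D) - 1) ^ (r + 1 + i') = q * v' := by
      have : (((b : ℤ) ^ (t * D) - 1) ^ (r + 1 + i') : ℤ) = q * v' := hv'
      exact_mod_cast this
    have hq00 : (q : ℝ) ≠ 0 := by
      have : q ≠ 0 := by omega
      exact_mod_cast this
    have h5 : A b t D q c (r + 1 + i') j = (((b : ℤ) ^ j * v' * c : ℤ) : ℝ) := by
      unfold A
      rw [h3]
      push_cast
      field_simp
    rw [h5]
    exact near_int _ hε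

/-- all differences -/
lemma levels {s b t : ℕ} (hb : 2 ≤ b) (hs1 : 1 ≤ s) (hsb : Nat.Coprime b s)
    (hB : (2 : ℤ) ≤ (b : ℤ) ^ t)
    (hs : ∀ p : ℕ, p.Prime → p ∣ s → (p : ℤ) ∣ (b : ℤ) ^ t - 1)
    (h4 : 2 ∣ s → (4 : ℤ) ∣ (b : ℤ) ^ t - 1) (r : ℕ) : ∀ d : ℕ, d ≤ r → ∀ ε : ℝ, 0 < ε → ∀ y : ℝ,
    ∃ C Q : ℕ, ∀ (q D : ℕ) (c : ℤ), Q ≤ q → Valid s (r + 1) q D c →
      Hit (A b t D q c) (r - d) y ε (C * D) := by
  intro d
  induction d with
  | zero =>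
    intro _ ε hε y
    obtain ⟨Q, hQ⟩ := base hb hs1 hsb hB hs h4 r hε
    refine ⟨1, Q, fun q D c hq hV => ?_⟩
    have := hQ q D c hq hV y
    simpa using this
  | succ d ih =>
    intro hd ε hε y
    obtain ⟨J, σ, ε', hε', hst⟩ := step hε
    obtain ⟨C, Q, hCQ⟩ := ih (by omega) ε' hε' σ
    refine ⟨C + t * J, Q, fun q D c hq hV => ?_⟩
    have h1 := hCQ q D c hq hV
    have e1 : r - d = (r - (d + 1)) + 1 := by omega
    rw [e1] at h1
    have h2 := hst (A b t D q c) (t * D) (A_step b t D q c) (r - (d + 1)) y (C * D) h1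
    have e2 : C * D + t * D * J = (C + t * J) * D := by ring
    rwa [e2] at h2

/-- pieces of length `O(D)` of the orbit of `c / q` come close to every point -/
theorem hits {s b : ℕ} (hb : 2 ≤ b) (hs1 : 1 ≤ s) (hsb : Nat.Coprime b s) (r : ℕ) {ε : ℝ}
    (hε : 0 < ε) (y : ℝ) :
    ∃ C Q : ℕ, ∀ (q D : ℕ) (c : ℤ), Q ≤ q → Valid s (r + 1) q D c →
      ∃ k : ℕ, k ≤ C * D ∧ near ((b : ℝ) ^ k * c / q) y ε := by
  obtain ⟨t, _, hB, hs, h4⟩ := period hb hs1 hsb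
  obtain ⟨C, Q, h⟩ := levels hb hs1 hsb hB hs h4 r r le_rfl ε hε y
  refine ⟨C, Q, fun q D c hq hV => ?_⟩
  obtain ⟨k, hk, h1, _⟩ := h q D c hq hV
  refine ⟨k, hk, ?_⟩
  rw [Nat.sub_self] at h1
  unfold A at h1
  simpa using h1

end Pool.Agent.Q187.SA
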