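import Pool.Agent.Q187.SA.Ar

/-!
# Numbers with very good approximations by rationals with smooth denominators
-/

set_option autoImplicit false

namespace Pool.Agent.Q187.SA

open Finset Pool.Agent.Results.MP_c9a594_an.SmoothLiouville

/-- an approximate root of `q` -/
lemma exists_D {s q : ℕ} (hs1 : 1 ≤ s) (hq : 1 ≤ q) (hqs : Smo s q) (r : ℕ) :
    ∃ D : ℕ, 1 ≤ D ∧ Smo s D ∧ q ∣ D ^ (r + 1) ∧ D ^ (r + 1) ≤ q * s ^ r := by
  set e : ℕ → ℕ := fun p => (q.factorization p + r) / (r + 1) with he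
  have hfac : q = ∏ p ∈ q.primeFactors, p ^ q.factorization p := by
    conv_lhs => rw [← Nat.factorization_prod_pow_eq_self (by omega : q ≠ 0)]
    rfl
  have hpow : (∏ p ∈ q.primeFactors, p ^ e p) ^ (r + 1) =
      ∏ p ∈ q.primeFactors, p ^ (e p * (r + 1)) := by
    rw [← Finset.prod_pow]
    exact Finset.prod_congr rfl fun p _ => (pow_mul _ _ _).symm
  refine ⟨∏ p ∈ q.primeFactors, p ^ e p, ?_, ?_, ?_, ?_⟩
  · exact Nat.one_le_iff_ne_zero.2 (Finset.prod_ne_zero_iff.2 fun p hp =>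
      pow_ne_zero _ (Nat.prime_of_mem_primeFactors hp).ne_zero)
  · intro p hp hpd
    obtain ⟨p', hp', hd⟩ := (Nat.prime_iff.1 hp).exists_mem_finset_dvd hpd
    have h1 := (Nat.prime_dvd_prime_iff_eq hp (Nat.prime_of_mem_primeFactors hp')).1
      (hp.dvd_of_dvd_pow hd)
    subst h1
    exact hqs p hp (Nat.dvd_of_mem_primeFactors hp')
  · rw [hpow]
    conv_lhs => rw [hfac]
    apply Finset.prod_dvd_prod_of_dvd
    intro p _
    apply pow_dvd_pow
    have h1 := Nat.div_add_mod (q.factorization p + r) (r + 1)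
    have h2 := Nat.mod_lt (q.factorization p + r) (show 0 < r + 1 by omega)
    rw [mul_comm] at h1
    simp only [he]
    omega
  · rw [hpow]
    calc ∏ p ∈ q.primeFactors, p ^ (e p * (r + 1))
        ≤ ∏ p ∈ q.primeFactors, (p ^ q.factorization p * p ^ r) := by
          apply Finset.prod_le_prod' 
          intro p hp
          rw [← pow_add]
          exact Nat.pow_le_pow_right (Nat.prime_of_mem_primeFactors hp).pos
            (Nat.div_mul_le_self _ _)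
      _ = q * (∏ p ∈ q.primeFactors, p) ^ r := by
          rw [Finset.prod_mul_distrib, ← hfac, Finset.prod_pow]
      _ ≤ q * s ^ r := by
          apply Nat.mul_le_mul_left
          apply Nat.pow_le_pow_left
          have h1 : q.primeFactors ⊆ s.primeFactors := by
            intro p hp
            have hpp := Nat.prime_of_mem_primeFactors hp
            exact Nat.mem_primeFactors.2 ⟨hpp, hqs p hpp (Nat.dvd_of_mem_primeFactors hp),
              by omega⟩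
          have h2 : ∏ p ∈ q.primeFactors, p ≤ ∏ p ∈ s.primeFactors, p :=
            Finset.prod_le_prod_of_subset_of_one_le' h1
              (fun p hp _ => (Nat.prime_of_mem_primeFactors hp).one_lt.le)
          exact h2.trans (Nat.le_of_dvd (by omega) (Nat.prod_primeFactors_dvd s))

lemma D_le {s q D r : ℕ} (hs1 : 1 ≤ s) (h : D ^ (r + 1) ≤ q * s ^ r) :
    (D : ℝ) ≤ s * (q : ℝ) ^ (1 / ((r : ℝ) + 1)) := by
  have hs : (1 : ℝ) ≤ s := by exact_mod_cast hs1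
  have h1 : (D : ℝ) ^ (r + 1) ≤ q * (s : ℝ) ^ r := by exact_mod_cast h
  have h2 : (D : ℝ) ^ (r + 1) ≤ (s * (q : ℝ) ^ (1 / ((r : ℝ) + 1))) ^ (r + 1) := by
    rw [mul_pow]
    have h3 : ((q : ℝ) ^ (1 / ((r : ℝ) + 1))) ^ (r + 1) = q := by
      rw [← Real.rpow_natCast, ← Real.rpow_mul (Nat.cast_nonneg _)]
      have : 1 / ((r : ℝ) + 1) * ((r + 1 : ℕ) : ℝ) = 1 := by
        push_cast
        field_simp
      rw [this, Real.rpow_one]
    rw [h3]
    calc (D : ℝ) ^ (r + 1) ≤ q * (s : ℝ) ^ r := h1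
      _ ≤ q * (s : ℝ) ^ (r + 1) := by
          apply mul_le_mul_of_nonneg_left _ (Nat.cast_nonneg _)
          exact pow_le_pow_right₀ hs (by omega)
      _ = _ := by ring
  exact le_of_pow_le_pow_left₀ (by omega) (by positivity) h2

/-- uniform version -/
theorem hits_uniform {s b : ℕ} (hb : 2 ≤ b) (hs1 : 1 ≤ s) (hsb : Nat.Coprime b s) (r : ℕ)
    {ε : ℝ} (hε : 0 < ε) :
    ∃ C Q : ℕ, ∀ (q : ℕ) (c : ℤ), Q ≤ q → 1 ≤ q → Smo s q → IsCoprime c (q : ℤ) → ∀ y : ℝ,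
      ∃ k : ℕ, (k : ℝ) ≤ C * (q : ℝ) ^ (1 / ((r : ℝ) + 1)) ∧ near ((b : ℝ) ^ k * c / q) y ε := by
  obtain ⟨n, hn⟩ := exists_nat_gt (2 / ε)
  have hn0 : (0 : ℝ) < n := lt_trans (by positivity) hn
  choose C Q h using fun i : Fin (n + 1) => hits hb hs1 hsb r (half_pos hε) ((i : ℕ) / (n : ℝ))
  refine ⟨(∑ i, C i) * s, ∑ i, Q i, ?_⟩
  intro q c hQ hq hqs hco y
  obtain ⟨D, hD1, hDs, hdvd, hle⟩ := exists_D hs1 hq hqs r
  set f := Int.fract y with hf
  have hf0 : 0 ≤ f := Int.fract_nonneg _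
  have hf1 : f < 1 := Int.fract_lt_one _
  set i : ℕ := ⌊f * n⌋₊ with hi
  have hi1 : (i : ℝ) ≤ f * n := Nat.floor_le (by positivity)
  have hi2 : f * n < i + 1 := Nat.lt_floor_add_one _
  have hin : i < n + 1 := by
    have : (i : ℝ) < n + 1 := by nlinarith
    exact_mod_cast this
  obtain ⟨k, hk, hnear⟩ := h ⟨i, hin⟩ q D c
    ((Finset.single_le_sum (f := Q) (fun _ _ => Nat.zero_le _) (Finset.mem_univ _)).trans hQ)
    ⟨hq, hD1, hqs, hDs, hdvd, by simpa using hle, hco⟩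
  refine ⟨k, ?_, ?_⟩
  · have h1 : C ⟨i, hin⟩ ≤ ∑ i, C i :=
      Finset.single_le_sum (f := C) (fun _ _ => Nat.zero_le _) (Finset.mem_univ _)
    have h2 : (k : ℝ) ≤ (∑ i, C i : ℕ) * D := by
      have : k ≤ (∑ i, C i) * D := hk.trans (Nat.mul_le_mul_right _ h1)
      exact_mod_cast this
    refine h2.trans ?_
    have h3 := D_le hs1 hle
    push_cast
    push_cast at h2
    calc _ ≤ (∑ i, (C i : ℝ)) * (s * (q : ℝ) ^ (1 / ((r : ℝ) + 1))) := by
          apply mul_le_mul_of_nonneg_left h3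
          exact Finset.sum_nonneg fun i _ => Nat.cast_nonneg _
      _ = _ := by ring
  · obtain ⟨z, hz⟩ := hnear
    simp only at hz
    refine ⟨z - ⌊y⌋, ?_⟩
    have h4 : y = ⌊y⌋ + f := by rw [hf, Int.floor_add_fract]
    have h5 : (b : ℝ) ^ k * c / q - y - ((z - ⌊y⌋ : ℤ) : ℝ) =
        ((b : ℝ) ^ k * c / q - i / n - z) + (i / n - f) := by
      push_cast
      linarith
    rw [h5]
    have h6 : |(i : ℝ) / n - f| ≤ 1 / n := by
      have h7 : (i : ℝ) / n ≤ f := by rw [div_le_iff₀ hn0]; exact hi1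
      have h8 : f ≤ (i : ℝ) / n + 1 / n := by rw [← add_div, le_div_iff₀ hn0]; exact hi2.le
      rw [abs_le]
      constructor <;> linarith
    have h9 : 1 / (n : ℝ) < ε / 2 := by
      rw [div_lt_iff₀ hε] at hn
      rw [div_lt_div_iff₀ hn0 (by norm_num)]
      linarith
    calc _ ≤ |(b : ℝ) ^ k * c / q - i / n - z| + |(i : ℝ) / n - f| := abs_add_le _ _
      _ < ε := by linarith

/-- the error is small -/
lemma growth {b : ℕ} (hb : 2 ≤ b) {δ : ℝ} (hδ : 0 < δ) (C : ℝ) (hC : 0 ≤ C) {ε : ℝ} (hε : 0 < ε) :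
    ∃ Q : ℕ, 1 ≤ Q ∧ ∀ q : ℕ, Q ≤ q → ∀ k₀ k : ℕ, k₀ ≤ Nat.log 2 q →
      (k : ℝ) ≤ C * (q : ℝ) ^ (δ / 2) → (b : ℝ) ^ (k₀ + k) * Real.exp (-(q : ℝ) ^ δ) < ε := by
  have hb0 : (0 : ℝ) < b := by exact_mod_cast (by omega : 0 < b)
  have hb1 : (1 : ℝ) < b := by exact_mod_cast (by omega : 1 < b)
  have hlb : 0 < Real.log b := Real.log_pos hb1
  have hl2 : 0 < Real.log 2 := Real.log_pos (by norm_num)
  set c : ℝ := Real.log b * (2 / (δ * Real.log 2) + C) with hc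
  have hc0 : 0 ≤ c := by positivity
  have ht : Filter.Tendsto (fun q : ℕ => (q : ℝ) ^ (δ / 2)) Filter.atTop Filter.atTop :=
    (tendsto_rpow_atTop (half_pos hδ)).comp tendsto_natCast_atTop_atTop
  obtain ⟨Q, hQ⟩ := (ht.eventually_ge_atTop (c + 2 + |Real.log ε|)).exists_forall_of_atTop
  refine ⟨max Q 1, le_max_right _ _, fun q hq k₀ k hk₀ hk => ?_⟩
  have hq1 : 1 ≤ q := (le_max_right _ _).trans hq
  have hq0 : (0 : ℝ) < q := by exact_mod_cast hq1
  set Y : ℝ := (q : ℝ) ^ (δ / 2) with hY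
  have hYb := hQ q ((le_max_left _ _).trans hq)
  have hY2 : (q : ℝ) ^ δ = Y * Y := by
    rw [hY, ← Real.rpow_add hq0]; congr 1; ring
  have hk0' : (k₀ : ℝ) ≤ 2 / (δ * Real.log 2) * Y := by
    have h1 : (2 : ℝ) ^ k₀ ≤ q := by
      have h2 : 2 ^ k₀ ≤ q := (Nat.pow_le_pow_right (by norm_num) hk₀).trans
        (Nat.pow_log_le_self 2 (by omega))
      exact_mod_cast h2
    have h2 : (k₀ : ℝ) * Real.log 2 ≤ Real.log q := by
      rw [← Real.log_pow]
      exact Real.log_le_log (by positivity) h1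
    have h3 : Real.log q ≤ Y / (δ / 2) := Real.log_le_rpow_div hq0.le (half_pos hδ)
    have h4 : (k₀ : ℝ) * Real.log 2 ≤ Y / (δ / 2) := h2.trans h3
    rw [← le_div_iff₀ hl2] at h4
    refine h4.trans (le_of_eq ?_)
    field_simp
  have hexp : (b : ℝ) ^ (k₀ + k) = Real.exp (Real.log b * (k₀ + k)) := by
    rw [Real.exp_mul, Real.exp_log hb0]
    rw [← Real.rpow_natCast]
    push_cast
    rfl
  rw [hexp, ← Real.exp_add]
  conv_rhs => rw [← Real.exp_log hε]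
  apply Real.exp_lt_exp.2
  have h5 : Real.log b * ((k₀ : ℝ) + k) ≤ c * Y := by
    have : (k₀ : ℝ) + k ≤ (2 / (δ * Real.log 2) + C) * Y := by
      rw [add_mul]; exact add_le_add hk0' hk
    calc Real.log b * ((k₀ : ℝ) + k) ≤ Real.log b * ((2 / (δ * Real.log 2) + C) * Y) :=
          mul_le_mul_of_nonneg_left this hlb.le
      _ = c * Y := by rw [hc]; ring
  have h6 : -|Real.log ε| ≤ Real.log ε := neg_abs_le _
  rw [hY2]
  have h7 := abs_nonneg (Real.log ε)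
  nlinarith

/-- density of the orbit -/
theorem orbit_dense {s b : ℕ} (hb : 2 ≤ b) (hs1 : 1 ≤ s) (hsb : Nat.Coprime b s) {x δ : ℝ}
    (hδ : 0 < δ)
    (h : ∀ Q : ℕ, ∃ (q v k₀ : ℕ) (c : ℤ), Q ≤ v ∧ 1 ≤ v ∧ v ≤ q ∧ Smo s v ∧ IsCoprime c (v : ℤ) ∧
      k₀ ≤ Nat.log 2 q ∧ |(b : ℝ) ^ k₀ * x - c / v| ≤ (b : ℝ) ^ k₀ * Real.exp (-(q : ℝ) ^ δ)) :
    orb b x = Set.Icc 0 1 := by
  have hsub : Set.range (fun n : ℕ => Int.fract ((b : ℝ) ^ n * x)) ⊆ Set.Icc 0 1 := by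
    rintro _ ⟨n, rfl⟩
    exact ⟨Int.fract_nonneg _, (Int.fract_lt_one _).le⟩
  refine Set.Subset.antisymm (closure_minimal hsub isClosed_Icc) ?_
  have h1 : Set.Ioo (0 : ℝ) 1 ⊆ orb b x := by
    intro y hy
    refine Metric.mem_closure_iff.2 fun ε hε => ?_
    set η : ℝ := min ε (min y (1 - y)) / 2 with hη
    have hm0 : 0 < min ε (min y (1 - y)) := lt_min hε (lt_min hy.1 (by linarith [hy.2]))
    have hη0 : 0 < η := by rw [hη]; linarith
    have hηε : 2 * η ≤ ε := by rw [hη]; linarith [min_le_left ε (min y (1 - y))]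
    have hηy : 2 * η ≤ y := by
      rw [hη]; linarith [(min_le_right ε (min y (1 - y))).trans (min_le_left y (1 - y))]
    have hηy' : 2 * η ≤ 1 - y := by
      rw [hη]; linarith [(min_le_right ε (min y (1 - y))).trans (min_le_right y (1 - y))]
    obtain ⟨r, hr⟩ := exists_nat_gt (2 / δ)
    have hrδ : 1 / ((r : ℝ) + 1) ≤ δ / 2 := by
      rw [div_lt_iff₀ hδ] at hr
      rw [div_le_div_iff₀ (by positivity) (by norm_num)]
      nlinarith
    obtain ⟨C, Q1, hC⟩ := hits_uniform hb hs1 hsb r hη0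
    obtain ⟨Q2, hQ21, hQ2⟩ := growth hb hδ (C : ℝ) (Nat.cast_nonneg _) hη0
    obtain ⟨q, v, k₀, c, hQv, hv1, hvq, hvs, hco, hk₀, herr⟩ := h (max Q1 Q2)
    obtain ⟨k, hk, z, hz⟩ := hC v c ((le_max_left _ _).trans hQv) hv1 hvs hco y
    have hv1' : (1 : ℝ) ≤ v := by exact_mod_cast hv1
    have hvq' : (v : ℝ) ≤ q := by exact_mod_cast hvq
    have hkq : (k : ℝ) ≤ C * (q : ℝ) ^ (δ / 2) := by
      refine hk.trans (mul_le_mul_of_nonneg_left ?_ (Nat.cast_nonneg _))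
      calc (v : ℝ) ^ (1 / ((r : ℝ) + 1)) ≤ (v : ℝ) ^ (δ / 2) :=
            Real.rpow_le_rpow_of_exponent_le hv1' hrδ
        _ ≤ (q : ℝ) ^ (δ / 2) := Real.rpow_le_rpow (by linarith) hvq' (by linarith)
    have hsmall := hQ2 q ((le_max_right _ _).trans (hQv.trans hvq)) k₀ k hk₀ hkq
    have hb0 : (0 : ℝ) < b := by exact_mod_cast (by omega : 0 < b)
    have herr2 : |(b : ℝ) ^ (k₀ + k) * x - (b : ℝ) ^ k * c / v| < η := by
      have e1 : (b : ℝ) ^ (k₀ + k) * x - (b : ℝ) ^ k * c / v =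
          (b : ℝ) ^ k * ((b : ℝ) ^ k₀ * x - c / v) := by
        rw [pow_add]; ring
      rw [e1, abs_mul, abs_of_pos (by positivity)]
      refine lt_of_le_of_lt (mul_le_mul_of_nonneg_left herr (by positivity)) ?_
      have e2 : (b : ℝ) ^ k * ((b : ℝ) ^ k₀ * Real.exp (-(q : ℝ) ^ δ)) =
          (b : ℝ) ^ (k₀ + k) * Real.exp (-(q : ℝ) ^ δ) := by
        rw [pow_add]; ring
      rwa [e2]
    rw [abs_lt] at herr2 hz
    have hfr : Int.fract ((b : ℝ) ^ (k₀ + k) * x) = (b : ℝ) ^ (k₀ + k) * x - z := by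
      rw [Int.fract_eq_iff]
      refine ⟨by linarith, by linarith, z, by ring⟩
    refine ⟨_, ⟨k₀ + k, rfl⟩, ?_⟩
    simp only
    rw [hfr, Real.dist_eq, abs_lt]
    constructor <;> linarith
  have h2 := closure_minimal h1 isClosed_closure
  rwa [closure_Ioo (by norm_num)] at h2

/-- the approximations may be taken in lowest terms -/
lemma reduce {s : ℕ} {x δ : ℝ} (hx : Irrational x) (hδ : 0 < δ)
    (h : ∀ Q : ℕ, ∃ q : ℕ, Q ≤ q ∧ Smo s q ∧ ∃ c : ℤ, |x - c / q| < Real.exp (-(q : ℝ) ^ δ))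
    (Q : ℕ) : ∃ q : ℕ, Q ≤ q ∧ 1 ≤ q ∧ Smo s q ∧
      ∃ c : ℤ, IsCoprime c (q : ℤ) ∧ |x - c / q| < Real.exp (-(q : ℝ) ^ δ) := by
  obtain ⟨η, hη, haw⟩ := away hx Q
  have ht : Filter.Tendsto (fun q : ℕ => Real.exp (-(q : ℝ) ^ δ)) Filter.atTop (nhds 0) :=
    Real.tendsto_exp_neg_atTop_nhds_zero.comp
      ((tendsto_rpow_atTop hδ).comp tendsto_natCast_atTop_atTop)
  obtain ⟨Q', hQ'⟩ := ((tendsto_order.1 ht).2 (η / (Q + 1)) (by positivity)).exists_forall_of_atTop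
  obtain ⟨q, hq, hqs, c, hc⟩ := h (max Q' 1)
  have hq1 : 1 ≤ q := (le_max_right _ _).trans hq
  set d : ℕ := Int.gcd c q with hd
  have hd0 : 0 < d := Int.gcd_pos_of_ne_zero_right _ (by exact_mod_cast (by omega : q ≠ 0))
  obtain ⟨q', hq'⟩ : d ∣ q := by
    have := Int.gcd_dvd_right c (q : ℤ)
    exact_mod_cast this
  obtain ⟨c', hc'⟩ : (d : ℤ) ∣ c := Int.gcd_dvd_left c (q : ℤ)
  have hq'1 : 1 ≤ q' := by
    rcases Nat.eq_zero_or_pos q' with h0 | h0
    · rw [h0] at hq'; omega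
    · exact h0
  have hqq : q' ≤ q := by rw [hq']; exact Nat.le_mul_of_pos_left _ hd0
  have hd0' : (d : ℝ) ≠ 0 := by exact_mod_cast hd0.ne'
  have heq : (c : ℝ) / q = c' / q' := by
    rw [hc', hq']; push_cast
    rw [mul_div_mul_left _ _ hd0']
  have hq'0 : (0 : ℝ) < q' := by exact_mod_cast hq'1
  rw [heq] at hc
  refine ⟨q', ?_, hq'1, fun p hp hpq => hqs p hp (by rw [hq']; exact hpq.mul_left _), c', ?_, ?_⟩
  · by_contra hlt
    push Not at hlt
    have h1 := haw q' hq'1 hlt.le c'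
    have h2 := hQ' q ((le_max_left _ _).trans hq)
    have h3 : |(q' : ℝ) * x - c'| = q' * |x - c' / q'| := by
      rw [← abs_of_pos hq'0, ← abs_mul, abs_of_pos hq'0]
      congr 1
      field_simp
    rw [h3] at h1
    have h4 : (q' : ℝ) ≤ Q + 1 := by
      have : q' ≤ Q + 1 := by omega
      exact_mod_cast this
    have h5 : (q' : ℝ) * |x - c' / q'| ≤ (Q + 1) * (η / (Q + 1)) :=
      mul_le_mul h4 (hc.le.trans h2.le) (abs_nonneg _) (by positivity)
    have h6 : ((Q : ℝ) + 1) * (η / (Q + 1)) = η := by field_simp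
    linarith
  · rw [Int.isCoprime_iff_gcd_eq_one]
    have h1 : Int.gcd c q = d * Int.gcd c' q' := by
      rw [hc', hq']; push_cast
      rw [Int.gcd_mul_left]; simp
    have h2 : d * 1 = d * Int.gcd c' q' := by rw [mul_one, ← h1]
    exact (Nat.eq_of_mul_eq_mul_left hd0 h2).symm
  · refine hc.trans_le (Real.exp_le_exp.2 (neg_le_neg ?_))
    exact Real.rpow_le_rpow hq'0.le (by exact_mod_cast hqq) hδ.le

/-- a base coprime to the denominators -/
theorem coprime_base {s b : ℕ} (hb : 2 ≤ b) (hs1 : 1 ≤ s) (hsb : Nat.Coprime b s) {x δ : ℝ}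
    (hx : Irrational x) (hδ : 0 < δ)
    (h : ∀ Q : ℕ, ∃ q : ℕ, Q ≤ q ∧ Smo s q ∧ ∃ c : ℤ, |x - c / q| < Real.exp (-(q : ℝ) ^ δ)) :
    orb b x = Set.Icc 0 1 := by
  apply orbit_dense hb hs1 hsb hδ
  intro Q
  obtain ⟨q, hQ, hq1, hqs, c, hco, hc⟩ := reduce hx hδ h Q
  exact ⟨q, q, 0, c, hQ, hq1, le_rfl, hqs, hco, Nat.zero_le _, by simpa using hc.le⟩

end Pool.Agent.Q187.SA
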