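import Pool.Agent.Q187.SA.Fin

/-!
# Two bases
-/

set_option autoImplicit false

namespace Pool.Agent.Q187.SA

open Finset Pool.Agent.Results.MP_c9a594_an.SmoothLiouville

/-- the part of `q` made of primes dividing `b` -/
def gp (b q : ℕ) : ℕ := Nat.gcd q (b ^ q)

/-- the part of `q` coprime to `b` -/
def vp (b q : ℕ) : ℕ := q / gp b q

lemma gp_mul_vp (b q : ℕ) : gp b q * vp b q = q := Nat.mul_div_cancel' (Nat.gcd_dvd_left _ _)

lemma vp_pos {b q : ℕ} (hq : 1 ≤ q) : 1 ≤ vp b q := by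
  rcases Nat.eq_zero_or_pos (vp b q) with h | h
  · have := gp_mul_vp b q
    rw [h] at this
    omega
  · exact h

lemma vp_dvd (b q : ℕ) : vp b q ∣ q := ⟨gp b q, by rw [mul_comm]; exact (gp_mul_vp b q).symm⟩

lemma vp_coprime {b q : ℕ} (hq : 1 ≤ q) : Nat.Coprime b (vp b q) := by
  rw [Nat.coprime_iff_gcd_eq_one]
  by_contra hne
  obtain ⟨p, hp, hpd⟩ := Nat.exists_prime_and_dvd hne
  have h1 : p ∣ b := hpd.trans (Nat.gcd_dvd_left _ _)
  have h2 : p ∣ vp b q := hpd.trans (Nat.gcd_dvd_right _ _)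
  have h3 : p ^ q.factorization p ∣ q := Nat.ordProj_dvd q p
  have h4 : p ^ q.factorization p ∣ b ^ q := by
    have h5 : q.factorization p ≤ q := (Nat.factorization_lt p (by omega)).le
    exact (pow_dvd_pow p h5).trans (pow_dvd_pow_of_dvd h1 q)
  have h5 : p ^ q.factorization p ∣ gp b q := Nat.dvd_gcd h3 h4
  have h6 : p ^ (q.factorization p + 1) ∣ gp b q * vp b q := by
    rw [pow_succ]; exact mul_dvd_mul h5 h2
  rw [gp_mul_vp] at h6
  exact Nat.pow_succ_factorization_not_dvd (by omega) hp h6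

lemma gp_prime {b q p : ℕ} (hp : p.Prime) (h : p ∣ gp b q) : p ∣ b ∧ p ∣ q :=
  ⟨hp.dvd_of_dvd_pow (h.trans (Nat.gcd_dvd_right _ _)), h.trans (Nat.gcd_dvd_left _ _)⟩

lemma gp_dvd {b q : ℕ} (hq : 1 ≤ q) : gp b q ∣ b ^ (Nat.log 2 q) := by
  rw [Nat.dvd_iff_prime_pow_dvd_dvd]
  intro p n hp hn
  rcases Nat.eq_zero_or_pos n with rfl | hn0
  · simp
  have h1 := gp_prime hp ((dvd_pow_self p hn0.ne').trans hn)
  have h2 : p ^ n ∣ q := hn.trans (Nat.gcd_dvd_left _ _)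
  have h3 : 2 ^ n ≤ q := (Nat.pow_le_pow_left hp.two_le n).trans (Nat.le_of_dvd (by omega) h2)
  have h4 : n ≤ Nat.log 2 q := Nat.le_log_of_pow_le (by norm_num) h3
  exact (pow_dvd_pow_of_dvd h1.1 n).trans (pow_dvd_pow b h4)

/-- the primes of `s` not dividing `b` -/
def sp (b s : ℕ) : ℕ := ∏ p ∈ s.primeFactors.filter (fun p => ¬ p ∣ b), p

lemma sp_pos (b s : ℕ) : 1 ≤ sp b s :=
  Nat.one_le_iff_ne_zero.2 (Finset.prod_ne_zero_iff.2 fun p hp =>
    (Nat.prime_of_mem_primeFactors (mem_filter.1 hp).1).ne_zero)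

lemma sp_coprime (b s : ℕ) : Nat.Coprime b (sp b s) := by
  apply Nat.Coprime.prod_right
  intro p hp
  have h := mem_filter.1 hp
  exact ((Nat.Prime.coprime_iff_not_dvd (Nat.prime_of_mem_primeFactors h.1)).2 h.2).symm

lemma smo_vp {b s q : ℕ} (hs1 : 1 ≤ s) (hq : 1 ≤ q) (hqs : Smo s q) : Smo (sp b s) (vp b q) := by
  intro p hp hpv
  apply Finset.dvd_prod_of_mem (fun p => p)
  rw [mem_filter, Nat.mem_primeFactors]
  refine ⟨⟨hp, hqs p hp (hpv.trans (vp_dvd b q)), by omega⟩, fun hpb => ?_⟩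
  exact (Nat.Prime.not_coprime_iff_dvd.2 ⟨p, hp, hpb, hpv⟩) (vp_coprime hq)

/-- one base, the part of the denominators coprime to it being unbounded -/
theorem one_base {s b : ℕ} (hb : 2 ≤ b) (hs1 : 1 ≤ s) {x δ : ℝ} (hδ : 0 < δ)
    (h : ∀ Q : ℕ, ∃ q : ℕ, ∃ c : ℤ, Q ≤ vp b q ∧ 1 ≤ q ∧ Smo s q ∧ IsCoprime c (q : ℤ) ∧
      |x - c / q| < Real.exp (-(q : ℝ) ^ δ)) :
    orb b x = Set.Icc 0 1 := by
  apply orbit_dense hb (sp_pos b s) (sp_coprime b s) hδ
  intro Q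
  obtain ⟨q, c, hQ, hq1, hqs, hco, hc⟩ := h Q
  obtain ⟨w, hw⟩ := gp_dvd (b := b) hq1
  set k₀ := Nat.log 2 q with hk₀
  have hv1 := vp_pos (b := b) hq1
  have hgv := gp_mul_vp b q
  have hg0 : gp b q ≠ 0 := by
    intro h0
    rw [h0] at hgv
    omega
  refine ⟨q, vp b q, k₀, c * w, hQ, hv1, Nat.le_of_dvd (by omega) (vp_dvd b q),
    smo_vp hs1 hq1 hqs, ?_, le_rfl, ?_⟩
  · apply IsCoprime.mul_left
    · have h1 : ((q : ℕ) : ℤ) = (vp b q : ℤ) * gp b q := by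
        rw [mul_comm]
        exact_mod_cast hgv.symm
      rw [h1] at hco
      exact hco.of_mul_right_left
    · have h1 : Nat.Coprime (b ^ k₀) (vp b q) := (vp_coprime hq1).pow_left _
      rw [hw] at h1
      exact Nat.isCoprime_iff_coprime.2 h1.coprime_mul_left
  · have hgr : (gp b q : ℝ) ≠ 0 := by exact_mod_cast hg0
    have hvr : (vp b q : ℝ) ≠ 0 := by
      have : vp b q ≠ 0 := by omega
      exact_mod_cast this
    have hb0 : (0 : ℝ) < (b : ℝ) ^ k₀ := by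
      have : (0 : ℝ) < b := by exact_mod_cast (by omega : 0 < b)
      positivity
    have h1 : ((c * w : ℤ) : ℝ) / (vp b q : ℝ) = (b : ℝ) ^ k₀ * (c / q) := by
      have h2 : (b : ℝ) ^ k₀ = gp b q * w := by exact_mod_cast hw
      have h3 : (q : ℝ) = gp b q * vp b q := by exact_mod_cast hgv.symm
      rw [h2, h3]
      push_cast
      field_simp
    rw [h1, ← mul_sub, abs_mul, abs_of_pos hb0]
    exact mul_le_mul_of_nonneg_left hc.le hb0.le

/-- two bases -/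
theorem two_bases {s a b : ℕ} (ha : 2 ≤ a) (hb : 2 ≤ b) (hs1 : 1 ≤ s)
    (hab : ∀ p : ℕ, p.Prime → p ∣ s → p ∣ a → ¬ p ∣ b) {x δ : ℝ} (hx : Irrational x) (hδ : 0 < δ)
    (h : ∀ Q : ℕ, ∃ q : ℕ, Q ≤ q ∧ Smo s q ∧ ∃ c : ℤ, |x - c / q| < Real.exp (-(q : ℝ) ^ δ)) :
    orb a x = Set.Icc 0 1 ∨ orb b x = Set.Icc 0 1 := by
  by_cases hP : ∀ Q : ℕ, ∃ q : ℕ, ∃ c : ℤ, Q ≤ vp b q ∧ 1 ≤ q ∧ Smo s q ∧ IsCoprime c (q : ℤ) ∧
      |x - c / q| < Real.exp (-(q : ℝ) ^ δ)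
  · exact Or.inr (one_base hb hs1 hδ hP)
  · left
    push Not at hP
    obtain ⟨Q1, hQ1⟩ := hP
    apply one_base ha hs1 hδ
    intro Q
    obtain ⟨q, hQ, hq1, hqs, c, hco, hc⟩ := reduce hx hδ h (Q * Q1)
    refine ⟨q, c, ?_, hq1, hqs, hco, hc⟩
    have h1 : vp b q < Q1 := by
      by_contra hcon
      push Not at hcon
      exact absurd hc (not_lt.2 (hQ1 q c hcon hq1 hqs hco))
    by_contra hcon
    push Not at hcon
    have hcop : Nat.Coprime (gp a q) (gp b q) := by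
      rw [Nat.coprime_iff_gcd_eq_one]
      by_contra hne
      obtain ⟨p, hp, hpd⟩ := Nat.exists_prime_and_dvd hne
      have h2 := gp_prime hp (hpd.trans (Nat.gcd_dvd_left _ _))
      have h3 := gp_prime hp (hpd.trans (Nat.gcd_dvd_right _ _))
      exact hab p hp (hqs p hp h2.2) h2.1 h3.1
    have h2 : gp a q * gp b q ≤ q := Nat.le_of_dvd (by omega)
      (hcop.mul_dvd_of_dvd_of_dvd (Nat.gcd_dvd_left _ _) (Nat.gcd_dvd_left _ _))
    have h3 : q * q ≤ q * (vp a q * vp b q) := by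
      calc q * q = (gp a q * vp a q) * (gp b q * vp b q) := by
            rw [gp_mul_vp, gp_mul_vp]
        _ = (gp a q * gp b q) * (vp a q * vp b q) := by ring
        _ ≤ q * (vp a q * vp b q) := Nat.mul_le_mul_right _ h2
    have h4 : q ≤ vp a q * vp b q := Nat.le_of_mul_le_mul_left h3 (by omega)
    have h5 : vp a q * vp b q < Q * Q1 := by
      have hv := vp_pos (b := b) hq1
      exact Nat.mul_lt_mul_of_lt_of_le hcon h1.le (by omega)
    omega

end Pool.Agent.Q187.SA
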