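import Mathlib

/-!
# Walking along an orbit with vanishing higher differences
-/

set_option autoImplicit false

namespace Pool.Agent.Q187.SA

/-- `a` is within `ε` of `t` modulo `1` -/
def near (a t ε : ℝ) : Prop := ∃ z : ℤ, |a - t - z| < ε

lemma near.add {a t e a' t' e' : ℝ} (h : near a t e) (h' : near a' t' e') :
    near (a + a') (t + t') (e + e') := by
  obtain ⟨z, hz⟩ := h
  obtain ⟨z', hz'⟩ := h'
  refine ⟨z + z', ?_⟩
  have : a + a' - (t + t') - ((z + z' : ℤ) : ℝ) = (a - t - z) + (a' - t' - z') := by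
    push_cast; ring
  rw [this]
  exact (abs_add_le _ _).trans_lt (add_lt_add hz hz')

lemma near.mono {a t e e' : ℝ} (h : near a t e) (he : e ≤ e') : near a t e' := by
  obtain ⟨z, hz⟩ := h
  exact ⟨z, hz.trans_le he⟩

lemma near_int (z : ℤ) {ε : ℝ} (hε : 0 < ε) : near z 0 ε := ⟨z, by simpa using hε⟩

lemma near_self (a : ℝ) {ε : ℝ} (hε : 0 < ε) : near a a ε := ⟨0, by simpa using hε⟩

lemma near.shift {a t t' e d : ℝ} (h : near a t e) (ht : |t - t'| ≤ d) : near a t' (e + d) := by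
  obtain ⟨z, hz⟩ := h
  refine ⟨z, ?_⟩
  have : a - t' - z = (a - t - z) + (t - t') := by ring
  rw [this]
  exact (abs_add_le _ _).trans_lt (add_lt_add_of_lt_of_le hz ht)

/-- the walk -/
lemma walk {A : ℕ → ℕ → ℝ} {m : ℕ} (hstep : ∀ i k, A i (k + m) = A i k + A (i + 1) k)
    {l k : ℕ} {σ e : ℝ} (he : 0 < e) (h2 : ∀ i, l + 2 ≤ i → near (A i k) 0 e)
    (h1 : near (A (l + 1) k) σ e) : ∀ j : ℕ,
      (∀ i, l + 2 ≤ i → near (A i (k + m * j)) 0 (2 ^ j * e)) ∧
      near (A (l + 1) (k + m * j)) σ (2 ^ j * e) ∧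
      near (A l (k + m * j)) (A l k + j * σ) (2 ^ j * e) := by
  intro j
  induction j with
  | zero =>
    refine ⟨fun i hi => by simpa using h2 i hi, by simpa using h1, ?_⟩
    simpa using near_self (A l k) he
  | succ j ih =>
    obtain ⟨i2, i1, i0⟩ := ih
    have e1 : k + m * (j + 1) = k + m * j + m := by ring
    have e2 : (2 : ℝ) ^ (j + 1) * e = 2 ^ j * e + 2 ^ j * e := by ring
    rw [e1, e2]
    refine ⟨fun i hi => ?_, ?_, ?_⟩
    · rw [hstep]
      have := (i2 i hi).add (i2 (i + 1) (by omega))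
      simpa using this
    · rw [hstep]
      have := i1.add (i2 (l + 1 + 1) (by omega))
      simpa using this
    · rw [hstep]
      have := i0.add i1
      have e3 : A l k + (j : ℝ) * σ + σ = A l k + ((j + 1 : ℕ) : ℝ) * σ := by
        push_cast; ring
      rwa [e3] at this

/-- some `k ≤ K` has `A l k` near `t` and all higher differences near `0` -/
def Hit (A : ℕ → ℕ → ℝ) (l : ℕ) (t ε : ℝ) (K : ℕ) : Prop :=
  ∃ k : ℕ, k ≤ K ∧ near (A l k) t ε ∧ ∀ i, l < i → near (A i k) 0 ε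

/-- one level down -/
lemma step {ε : ℝ} (hε : 0 < ε) : ∃ J : ℕ, ∃ σ ε' : ℝ, 0 < ε' ∧
    ∀ (A : ℕ → ℕ → ℝ) (m : ℕ), (∀ i k, A i (k + m) = A i k + A (i + 1) k) →
      ∀ (l : ℕ) (t : ℝ) (K : ℕ), Hit A (l + 1) σ ε' K → Hit A l t ε (K + m * J) := by
  obtain ⟨J, hJ⟩ := exists_nat_gt (4 / ε)
  have hJ0 : (0 : ℝ) < J := lt_trans (by positivity) hJ
  have hσ : 1 / (J : ℝ) < ε / 4 := by
    rw [div_lt_iff₀ hε] at hJ
    rw [div_lt_div_iff₀ hJ0 (by norm_num)]
    linarith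
  refine ⟨J, 1 / J, ε / (4 * 2 ^ J), by positivity, ?_⟩
  intro A m hstep l t K hH
  obtain ⟨k, hk, h1, h2⟩ := hH
  have he' : (0 : ℝ) < ε / (4 * 2 ^ J) := by positivity
  have hw := walk hstep (l := l) he' (fun i hi => h2 i (by omega)) h1
  set f : ℝ := Int.fract (t - A l k) with hf
  have hf0 : 0 ≤ f := Int.fract_nonneg _
  have hf1 : f < 1 := Int.fract_lt_one _
  set j : ℕ := ⌊f * J⌋₊ with hj
  have hj1 : (j : ℝ) ≤ f * J := Nat.floor_le (by positivity)
  have hj2 : f * J < j + 1 := Nat.lt_floor_add_one _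
  have hjJ : j ≤ J := by
    have : (j : ℝ) ≤ J := by nlinarith
    exact_mod_cast this
  have hpow : (2 : ℝ) ^ j * (ε / (4 * 2 ^ J)) ≤ ε / 4 := by
    have h3 : (2 : ℝ) ^ j ≤ 2 ^ J := pow_le_pow_right₀ (by norm_num) hjJ
    calc (2 : ℝ) ^ j * (ε / (4 * 2 ^ J)) ≤ 2 ^ J * (ε / (4 * 2 ^ J)) :=
          mul_le_mul_of_nonneg_right h3 he'.le
      _ = ε / 4 := by field_simp
  obtain ⟨w2, w1, w0⟩ := hw j
  refine ⟨k + m * j, ?_, ?_, ?_⟩
  · exact Nat.add_le_add hk (Nat.mul_le_mul_left _ hjJ)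
  · -- the target
    obtain ⟨z, hz⟩ := w0
    refine ⟨z - ⌊t - A l k⌋, ?_⟩
    have h4 : t - A l k = ⌊t - A l k⌋ + f := by rw [hf, Int.floor_add_fract]
    have h5 : A l (k + m * j) - t - ((z - ⌊t - A l k⌋ : ℤ) : ℝ) =
        (A l (k + m * j) - (A l k + j * (1 / J)) - z) + (j * (1 / J) - f) := by
      push_cast
      linarith
    rw [h5]
    have h6 : |(j : ℝ) * (1 / J) - f| ≤ 1 / J := by
      have h7 : (j : ℝ) * (1 / J) ≤ f := by
        rw [mul_one_div, div_le_iff₀ hJ0]; exact hj1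
      have h8 : f ≤ (j : ℝ) * (1 / J) + 1 / J := by
        rw [mul_one_div, ← add_div, le_div_iff₀ hJ0]; exact hj2.le
      rw [abs_le]
      constructor <;> linarith
    calc _ ≤ |A l (k + m * j) - (A l k + j * (1 / J)) - z| + |(j : ℝ) * (1 / J) - f| :=
          abs_add_le _ _
      _ < ε := by linarith
  · intro i hi
    rcases Nat.lt_or_ge i (l + 2) with h | h
    · have : i = l + 1 := by omega
      subst this
      have h3 := w1.shift (t' := 0) (d := 1 / J) (by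
        rw [sub_zero, abs_of_pos (by positivity)])
      exact h3.mono (by linarith)
    · exact (w2 i h).mono (by linarith)

end Pool.Agent.Q187.SA
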